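import Mathlib
import Pool.Agent.Helper22.Local
import Pool.Agent.Helper22.LocalLabels

/-!
# Sets of `α`-normal numbers are everywhere locally `Π⁰₃`-complete

For a real number `α` with `|α| > 1` let `N(α)` be the set of reals `ξ` such that `(ξ αⁿ)_{n ≥ 1}` is
uniformly distributed modulo one. We prove that `N(α)` is `Π⁰₃`-complete (against all
zero-dimensional Polish spaces), that the reductions can be taken with values in any given nonempty
open set, and that they send the complement of the given set to reals `ξ` for which already one of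
finitely many Weyl sums (with frequencies below a bound that depends only on `α`) is not `o(N)`.
-/

set_option autoImplicit false
open Filter Topology

namespace Pool.Agent.Results.MP_7a0c2d_lc.LocalCompleteness

universe u

/-- `(x_n)_{n ≥ 1}` is uniformly distributed modulo one: for all `0 ≤ a ≤ b ≤ 1` the proportion of
the `n` in `{1, ..., N}` with `{x_n} ∈ [a, b)` tends to `b - a`. -/
def UniformlyDistributed (x : ℕ → ℝ) : Prop :=
  ∀ a b : ℝ, 0 ≤ a → a ≤ b → b ≤ 1 →
    Tendsto (fun N : ℕ => (((Finset.Icc 1 N).filter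
      (fun n => a ≤ Int.fract (x n) ∧ Int.fract (x n) < b)).card : ℝ) / N) atTop (𝓝 (b - a))

/-- `N(α)`, the set of reals normal with respect to `α` -/
def normalSet (α : ℝ) : Set ℝ := {ξ : ℝ | UniformlyDistributed (fun n => ξ * α ^ n)}

/-- the set of reals `ξ` with `(1 / N) ∑_{n = 1}^N exp (2 π i h ξ αⁿ) → 0` for all `1 ≤ h < H` -/
def weakNormalSet (H : ℕ) (α : ℝ) : Set ℝ :=
  {ξ : ℝ | ∀ h : ℕ, 1 ≤ h → h < H →
    Tendsto (fun N : ℕ => (∑ n ∈ Finset.Icc 1 N,
      Complex.exp (2 * Real.pi * Complex.I * ((h * (ξ * α ^ n) : ℝ) : ℂ))) / (N : ℂ)) atTop (𝓝 0)}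

/-- boldface `Π⁰₃`: a countable intersection of countable unions of closed sets -/
def IsPi03 {X : Type*} [TopologicalSpace X] (A : Set X) : Prop :=
  ∃ F : ℕ → ℕ → Set X, (∀ i j, IsClosed (F i j)) ∧ A = ⋂ i, ⋃ j, F i j

/-- the clopen sets form a basis -/
def ZeroDimensional (Y : Type*) [TopologicalSpace Y] : Prop :=
  TopologicalSpace.IsTopologicalBasis {s : Set Y | IsClopen s}

/-- `Π⁰₃`-complete: `Π⁰₃` and every `Π⁰₃` subset of every zero-dimensional Polish space is a
continuous preimage of it -/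
def IsPi03Complete (A : Set ℝ) : Prop :=
  IsPi03 A ∧ ∀ (Y : Type u) [TopologicalSpace Y] [PolishSpace Y], ZeroDimensional Y →
    ∀ B : Set Y, IsPi03 B → ∃ f : Y → ℝ, Continuous f ∧ B = f ⁻¹' A

open Pool.Agent.Helper22 in
theorem mem_normalSet_iff (α ξ : ℝ) :
    ξ ∈ normalSet α ↔ WeylCond (fun n => ξ * α ^ (n + 1)) := by
  have key : ∀ (a b : ℝ) (N : ℕ), (((Finset.Icc 1 N).filter
      (fun n => a ≤ Int.fract (ξ * α ^ n) ∧ Int.fract (ξ * α ^ n) < b)).card : ℝ) =
      (((Finset.range N).filter (fun n => a ≤ Int.fract (ξ * α ^ (n + 1)) ∧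
        Int.fract (ξ * α ^ (n + 1)) < b)).card : ℝ) := by
    intro a b N
    rw [Finset.card_filter, Finset.card_filter]
    congr 1
    have h1 : Finset.Icc 1 N = (Finset.range N).map ⟨fun n => n + 1, add_left_injective 1⟩ := by
      ext n
      simp only [Finset.mem_Icc, Finset.mem_map, Finset.mem_range, Function.Embedding.coeFn_mk]
      constructor
      · rintro ⟨h1, h2⟩
        exact ⟨n - 1, by omega, by omega⟩
      · rintro ⟨m, h1, rfl⟩
        omega
    rw [h1, Finset.sum_map]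
    rfl
  constructor
  · intro h
    refine weyl_of_freq_tendsto (u := fun n => ξ * α ^ (n + 1)) ?_
    intro a b ha hab hb
    refine (h a b ha hab hb).congr fun N => ?_
    rw [key a b N]
    rfl
  · intro h a b ha hab hb
    refine (freq_tendsto_of_weyl (u := fun n => ξ * α ^ (n + 1)) h ha hab hb).congr fun N => ?_
    rw [key a b N]
    rfl

open Pool.Agent.Helper22 in
theorem sum_Icc_exp (α ξ : ℝ) (h N : ℕ) :
    ∑ n ∈ Finset.Icc 1 N, Complex.exp (2 * Real.pi * Complex.I * ((h * (ξ * α ^ n) : ℝ) : ℂ)) =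
      ∑ n ∈ Finset.range N, ee (h * (ξ * α ^ (n + 1))) := by
  have h1 : Finset.Icc 1 N = (Finset.range N).map ⟨fun n => n + 1, add_left_injective 1⟩ := by
    ext n
    simp only [Finset.mem_Icc, Finset.mem_map, Finset.mem_range, Function.Embedding.coeFn_mk]
    constructor
    · rintro ⟨h1, h2⟩
      exact ⟨n - 1, by omega, by omega⟩
    · rintro ⟨m, h1, rfl⟩
      omega
  rw [h1, Finset.sum_map]
  refine Finset.sum_congr rfl fun n _ => ?_
  rw [ee_eq]
  congr 1
  simp only [Function.Embedding.coeFn_mk]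
  push_cast
  ring

open Pool.Agent.Helper22 in
theorem mem_weakNormalSet_iff (H : ℕ) (α ξ : ℝ) :
    ξ ∈ weakNormalSet H α ↔ WeylCondH H (fun n => ξ * α ^ (n + 1)) := by
  constructor
  · intro h k hk0 hkH
    refine (h k hk0 hkH).congr fun N => ?_
    rw [sum_Icc_exp]
  · intro h k hk0 hkH
    refine (h k hk0 hkH).congr fun N => ?_
    rw [sum_Icc_exp]

open Pool.Agent.Helper22 in
/-- `N(α)` is `Π⁰₃`. -/
theorem isPi03_normalSet (α : ℝ) : IsPi03 (normalSet α) := by
  refine ⟨fun i j => {ξ : ℝ | ∀ N ≥ j, ‖∑ n ∈ Finset.range N,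
    ee ((((Nat.unpair i).1 + 1 : ℕ) : ℝ) * (ξ * α ^ (n + 1)))‖ ≤ (N : ℝ) / ((Nat.unpair i).2 + 1)},
      ?_, ?_⟩
  · intro i j
    have h1 : {ξ : ℝ | ∀ N ≥ j, ‖∑ n ∈ Finset.range N,
        ee ((((Nat.unpair i).1 + 1 : ℕ) : ℝ) * (ξ * α ^ (n + 1)))‖ ≤
          (N : ℝ) / ((Nat.unpair i).2 + 1)} =
        ⋂ N ≥ j, {ξ : ℝ | ‖∑ n ∈ Finset.range N,
        ee ((((Nat.unpair i).1 + 1 : ℕ) : ℝ) * (ξ * α ^ (n + 1)))‖ ≤
          (N : ℝ) / ((Nat.unpair i).2 + 1)} := by
      ext ξ; simp
    show IsClosed {ξ : ℝ | ∀ N ≥ j, ‖∑ n ∈ Finset.range N,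
        ee ((((Nat.unpair i).1 + 1 : ℕ) : ℝ) * (ξ * α ^ (n + 1)))‖ ≤
          (N : ℝ) / ((Nat.unpair i).2 + 1)}
    rw [h1]
    apply isClosed_iInter; intro N
    apply isClosed_iInter; intro _
    apply isClosed_le _ continuous_const
    apply Continuous.norm
    apply continuous_finsetSum
    intro n _
    exact continuous_ee.comp (by fun_prop)
  · ext ξ
    rw [mem_normalSet_iff, Set.mem_iInter]
    constructor
    · intro hW i
      have h1 := hW ((Nat.unpair i).1 + 1) (Nat.succ_pos _)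
      rw [Metric.tendsto_atTop] at h1
      obtain ⟨N0, hN0⟩ := h1 (1 / ((Nat.unpair i).2 + 1)) (by positivity)
      rw [Set.mem_iUnion]
      refine ⟨max N0 1, fun N hN => ?_⟩
      have h2 := hN0 N ((le_max_left _ _).trans hN)
      have hNpos : (0:ℝ) < N := by
        have : 1 ≤ N := (le_max_right _ _).trans hN
        exact_mod_cast this
      rw [dist_zero_right, norm_div, Complex.norm_natCast, div_lt_iff₀ hNpos] at h2
      refine h2.le.trans (le_of_eq ?_)
      ring
    · intro hF h h0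
      rw [Metric.tendsto_atTop]
      intro ε hε
      obtain ⟨k, hk⟩ := exists_nat_one_div_lt hε
      have h1 := hF (Nat.pair (h - 1) k)
      rw [Set.mem_iUnion] at h1
      obtain ⟨j, hj⟩ := h1
      refine ⟨max j 1, fun N hN => ?_⟩
      have h2 : ‖∑ n ∈ Finset.range N, ee ((((Nat.unpair (Nat.pair (h - 1) k)).1 + 1 : ℕ) : ℝ) *
        (ξ * α ^ (n + 1)))‖ ≤ (N : ℝ) / ((Nat.unpair (Nat.pair (h - 1) k)).2 + 1) :=
        hj N ((le_max_left _ _).trans hN)
      rw [Nat.unpair_pair] at h2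
      simp only at h2
      rw [Nat.sub_add_cancel h0] at h2
      have hNpos : (0:ℝ) < N := by
        have : 1 ≤ N := (le_max_right _ _).trans hN
        exact_mod_cast this
      rw [dist_zero_right, norm_div, Complex.norm_natCast, div_lt_iff₀ hNpos]
      refine lt_of_le_of_lt h2 ?_
      rw [div_eq_mul_one_div, mul_comm]
      exact mul_lt_mul_of_pos_right hk hNpos

/-- `N(α)` contained in the weakly normal numbers -/
theorem normalSet_subset (H : ℕ) (α : ℝ) : normalSet α ⊆ weakNormalSet H α := by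
  intro ξ hξ
  rw [mem_weakNormalSet_iff]
  rw [mem_normalSet_iff] at hξ
  intro h h0 _
  exact hξ h h0

/-- Let `α` be real with `|α| > 1`. Then `N(α)` is `Π⁰₃`-complete. Moreover there is an `H` (which
depends only on `α`) such that for every nonempty open set `U` of reals, every second countable
zero-dimensional space `Y` and every `Π⁰₃` set `B` in `Y` there is a continuous map `f` from `Y`
to `U` which maps `B` into `N(α)` and the complement of `B` into the complement of the larger set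
`weakNormalSet H α`. -/
theorem result : ∀ α : ℝ, 1 < |α| →
    IsPi03Complete.{u} (normalSet α) ∧
    ∃ H : ℕ, normalSet α ⊆ weakNormalSet H α ∧
      ∀ U : Set ℝ, IsOpen U → U.Nonempty →
      ∀ (Y : Type u) [TopologicalSpace Y] [SecondCountableTopology Y], ZeroDimensional Y →
      ∀ B : Set Y, IsPi03 B → ∃ f : Y → ℝ, Continuous f ∧ (∀ y, f y ∈ U) ∧
        (∀ y ∈ B, f y ∈ normalSet α) ∧ (∀ y ∉ B, f y ∉ weakNormalSet H α) := by
  intro α hα
  obtain ⟨H, hH⟩ := Pool.Agent.Helper22.exists_point_local hα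
  have main : ∀ U : Set ℝ, IsOpen U → U.Nonempty →
      ∀ (Y : Type u) [TopologicalSpace Y] [SecondCountableTopology Y], ZeroDimensional Y →
      ∀ B : Set Y, IsPi03 B → ∃ f : Y → ℝ, Continuous f ∧ (∀ y, f y ∈ U) ∧
        (∀ y ∈ B, f y ∈ normalSet α) ∧ (∀ y ∉ B, f y ∉ weakNormalSet H α) := by
    intro U hU hUne Y _ _ hY B hB
    obtain ⟨c₀, hc₀⟩ := hUne
    obtain ⟨ε, hε, hball⟩ := Metric.isOpen_iff.1 hU c₀ hc₀
    obtain ⟨f, hf, hfU, hfpos, hfneg⟩ := hH c₀ ε hε
    obtain ⟨G, hG, rfl⟩ := hB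
    obtain ⟨lab, hlab, hpos, hneg⟩ := Pool.Agent.Helper22.exists_labels_zeroDim hY G hG
    refine ⟨fun y => f (lab y), hf.comp hlab, ?_, ?_, ?_⟩
    · intro y
      apply hball
      rw [Metric.mem_ball, Real.dist_eq]
      exact hfU (lab y)
    · intro y hy
      rw [mem_normalSet_iff]
      exact hfpos (lab y) (hpos y hy)
    · intro y hy
      rw [mem_weakNormalSet_iff]
      exact hfneg (lab y) (hneg y hy)
  refine ⟨⟨isPi03_normalSet α, ?_⟩, H, normalSet_subset H α, main⟩
  intro Y _ _ hY B hB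
  obtain ⟨f, hf, _, h1, h2⟩ := main Set.univ isOpen_univ Set.univ_nonempty Y hY B hB
  refine ⟨f, hf, ?_⟩
  ext y
  constructor
  · intro hy
    exact h1 y hy
  · intro hy
    by_contra hcon
    exact h2 y hcon (normalSet_subset H α hy)

end Pool.Agent.Results.MP_7a0c2d_lc.LocalCompleteness
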